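import Pool.Agent.E8helper30.MC.Stm

/-!
# Project MC: from the local to the global statement
-/

set_option autoImplicit false

namespace Pool.Agent.E8helper45.MC

open Pool.Agent.E8helper30.MC
open scoped Classical Pointwise

lemma mem_UC {G : Type} [AddCommGroup G] (I C W : Finset G) (c : G) :
    c ∈ UC I C W ↔ c ∈ C ∧ ∃ g ∈ I, g - c ∈ W ∧ ∀ w ∈ W, g - w ∈ C → g - w = c := by
  unfold UC
  rw [Finset.mem_filter]

/-- from the local to the global statement -/
theorem t_GLOB : S_GLOB := by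
  intro G _ _ I C X u hU hX hlt hMC
  obtain ⟨W, hW, hmin⟩ := hMC
  have hfin : Fintype G := Fintype.ofFinite G
  obtain ⟨Wf, hWf⟩ : ∃ Wf : Finset G, ∀ w, w ∈ Wf ↔ w ∈ W :=
    ⟨Finset.univ.filter fun w => w ∈ W, fun w => by simp⟩
  have key : ∀ c ∈ C, ∃ x ∈ X, c ∈ UC I C (Wf.image (fun w => w - x)) := by
    intro c hc
    have hlt' : (C : Set G) \ {c} ⊂ (C : Set G) := by
      refine ⟨Set.sdiff_subset, fun h => ?_⟩
      exact (h hc).2 rfl
    have hne := hmin _ hlt'
    obtain ⟨g, hg⟩ : ∃ g, g ∉ W + ((C : Set G) \ {c}) := by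
      by_contra h
      push Not at h
      exact hne (Set.eq_univ_of_forall h)
    have hgW : g ∈ W + (C : Set G) := by
      rw [hW]
      trivial
    obtain ⟨w, hw, c', hc', hwc⟩ := Set.mem_add.mp hgW
    have hcc : c' = c := by
      by_contra hne'
      exact hg (Set.mem_add.mpr ⟨w, hw, c', ⟨hc', hne'⟩, hwc⟩)
    subst hcc
    obtain ⟨x, hx, hgx⟩ := hX g
    refine ⟨x, hx, (mem_UC _ _ _ _).mpr ⟨hc, g - x, hgx, ?_, ?_⟩⟩
    · refine Finset.mem_image.mpr ⟨w, (hWf w).mpr hw, ?_⟩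
      rw [← hwc]
      abel
    · intro w' hw' h
      obtain ⟨w0, hw0, rfl⟩ := Finset.mem_image.mp hw'
      have e : g - x - (w0 - x) = g - w0 := by abel
      rw [e] at h ⊢
      by_contra hne'
      exact hg (Set.mem_add.mpr ⟨w0, (hWf w0).mp hw0, g - w0, ⟨h, hne'⟩, by abel⟩)
  have hsub : C ⊆ X.biUnion (fun x => UC I C (Wf.image (fun w => w - x))) := by
    intro c hc
    obtain ⟨x, hx, h⟩ := key c hc
    exact Finset.mem_biUnion.mpr ⟨x, hx, h⟩
  have hcard : C.card ≤ X.card * u := by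
    refine (Finset.card_le_card hsub).trans (Finset.card_biUnion_le_card_mul _ _ _ fun x _ => ?_)
    apply hU
    intro g _
    have hg : g + x ∈ W + (C : Set G) := by
      rw [hW]
      trivial
    obtain ⟨w, hw, c, hc, hwc⟩ := Set.mem_add.mp hg
    refine ⟨w - x, Finset.mem_image.mpr ⟨w, (hWf w).mpr hw, rfl⟩, ?_⟩
    have e : g - (w - x) = c := by
      have : g - (w - x) = (g + x) - w := by abel
      rw [this, ← hwc]
      abel
    rw [e]
    exact hc
  omega

end Pool.Agent.E8helper45.MC
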